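import Pool.Agent.Helper62.GR.Goals

/-!
# Project GR (MP_08df5f_al): packets LT (transitivity on the levels) and RI (rigid stabilisers)
-/

set_option autoImplicit false

namespace Pool.Agent.Helper96.GR

open Equiv Pool.Agent.Helper62.GR

/-- lifting an element of `GG` to a given first letter -/
theorem lift_elt (hSE : G_SE) (i : Bool) (g : Perm X) (hg : g ∈ GG) :
    ∃ k ∈ GG, ∀ z, k (cn i z) = cn i (g z) := by
  obtain ⟨_, _, h3, h4, _⟩ := hSE
  cases i with
  | false =>
    obtain ⟨h, _, hk⟩ := h4 g hg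
    exact ⟨pr g h, hk, fun z => pr_false _ _ _⟩
  | true =>
    obtain ⟨h, _, hk⟩ := h3 g hg
    exact ⟨pr h g, hk, fun z => pr_true _ _ _⟩

theorem lt (hSE : G_SE) : G_LT := by
  constructor
  · intro n
    induction n with
    | zero => exact fun x y => ⟨1, GG.one_mem, Agr_zero _ _⟩
    | succ n ih =>
      intro x y
      obtain ⟨g, hg, hgr⟩ := ih (tl x) (tl y)
      obtain ⟨k, hk, hkk⟩ := lift_elt hSE (y 0) g hg
      by_cases h : x 0 = y 0
      · refine ⟨k, hk, ?_⟩
        rw [← cn_tl x, h, hkk, ← cn_tl y, cn_zero, Agr_cn]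
        exact ⟨rfl, hgr⟩
      · have h' : (!x 0) = y 0 := by
          cases hx : x 0 <;> cases hy : y 0 <;> simp_all
        refine ⟨k * ga, GG.mul_mem hk ga_mem, ?_⟩
        rw [Perm.mul_apply, ← cn_tl x, ga_cn, h', hkk, ← cn_tl y, cn_zero, Agr_cn]
        exact ⟨rfl, hgr⟩
  · rintro x ⟨N, hN⟩
    revert x
    induction N with
    | zero =>
      intro x hx
      refine ⟨1, GG.one_mem, ?_⟩
      funext n
      exact hx n (Nat.zero_le n)
    | succ n ih =>
      intro x hx
      obtain ⟨g, hg, hgx⟩ := ih (tl x) (fun k hk => hx (k + 1) (by omega))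
      obtain ⟨k, hk, hkk⟩ := lift_elt hSE (x 0) g hg
      have e : k x = cn (x 0) xi := by
        rw [← cn_tl x, hkk, hgx, cn_zero]
      cases h : x 0 with
      | true =>
        rw [h, cn_xi] at e
        exact ⟨k, hk, e⟩
      | false =>
        refine ⟨ga * k, GG.mul_mem ga_mem hk, ?_⟩
        rw [Perm.mul_apply, e, h, ga_cn]
        exact cn_xi

/-- `k = a b a b` -/
def kk : Perm X := ga * gs 0 * ga * gs 0

/-- the normal closure of `k` in `GG` -/
def KK' : Subgroup (Perm X) := Subgroup.closure {z | ∃ x ∈ GG, z = x * kk * x⁻¹}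

theorem kk_mem : kk ∈ GG :=
  GG.mul_mem (GG.mul_mem (GG.mul_mem ga_mem (gs_mem 0)) ga_mem) (gs_mem 0)

theorem KK'_le : KK' ≤ GG := by
  unfold KK'
  rw [Subgroup.closure_le]
  rintro _ ⟨x, hx, rfl⟩
  exact GG.mul_mem (GG.mul_mem hx kk_mem) (GG.inv_mem hx)

theorem KK'_conj {x y : Perm X} (hx : x ∈ GG) (hy : y ∈ KK') : x * y * x⁻¹ ∈ KK' := by
  unfold KK' at hy
  induction hy using Subgroup.closure_induction with
  | mem z hz =>
    obtain ⟨w, hw, rfl⟩ := hz
    refine Subgroup.subset_closure ⟨x * w, GG.mul_mem hx hw, ?_⟩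
    group
  | one =>
    have : x * 1 * x⁻¹ = 1 := by group
    rw [this]
    exact KK'.one_mem
  | mul y z _ _ hy hz =>
    have : x * (y * z) * x⁻¹ = (x * y * x⁻¹) * (x * z * x⁻¹) := by group
    rw [this]
    exact KK'.mul_mem hy hz
  | inv y _ hy =>
    have : x * y⁻¹ * x⁻¹ = (x * y * x⁻¹)⁻¹ := by group
    rw [this]
    exact KK'.inv_mem hy

theorem gs2_eq : gs 2 = pr 1 (gs 0) := by
  rw [gs_eq_pr 2, if_pos rfl, gs_congr (show (2 + 1) % 3 = 0 % 3 by norm_num)]

theorem gs0_eq : gs 0 = pr ga (gs 1) := by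
  rw [gs_eq_pr 0, if_neg (by norm_num)]

theorem ada : ga * gs 2 * ga = pr (gs 0) 1 := by
  rw [gs2_eq, ga_mul_pr, mul_assoc, ga_mul_ga, mul_one]

theorem prk_eq : pr kk 1 = (gs 0 * ga * gs 2) * kk * (gs 0 * ga * gs 2)⁻¹ *
    (gs 0 * kk * (gs 0)⁻¹) := by
  have h1 : gs 0 * (ga * gs 2 * ga) = pr (ga * gs 0) (gs 1) := by
    rw [ada]
    nth_rw 1 [gs0_eq]
    rw [pr_mul, mul_one]
  have h2 : pr kk 1 = (gs 0 * (ga * gs 2 * ga)) * (gs 0 * (ga * gs 2 * ga)) := by
    rw [h1, pr_mul, gs_mul_gs]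
    congr 1
  rw [h2, mul_inv_rev, mul_inv_rev, gs_inv, gs_inv, ga_inv]
  unfold kk
  have ha : ∀ z : Perm X, ga * (ga * z) = z := fun z => by rw [← mul_assoc, ga_mul_ga, one_mul]
  have hb : ∀ (s : ℕ) (z : Perm X), gs s * (gs s * z) = z := fun s z => by
    rw [← mul_assoc, gs_mul_gs, one_mul]
  have hbd : ∀ z : Perm X, gs 0 * (gs 2 * z) = gs 2 * (gs 0 * z) := fun z => by
    rw [← mul_assoc, gs_comm, mul_assoc]
  simp only [mul_assoc, ha, hb, hbd, gs_mul_gs, mul_one]

theorem gs_first (s : ℕ) (x : X) : gs s x 0 = x 0 := rfl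

theorem prk_mem : pr kk 1 ∈ KK' := by
  rw [prk_eq]
  refine KK'.mul_mem (Subgroup.subset_closure ⟨_, ?_, rfl⟩) (Subgroup.subset_closure ⟨_, ?_, rfl⟩)
  · exact GG.mul_mem (GG.mul_mem (gs_mem 0) ga_mem) (gs_mem 2)
  · exact gs_mem 0

theorem pr_mem_left (hSE : G_SE) {y : Perm X} (hy : y ∈ KK') : pr y 1 ∈ KK' := by
  obtain ⟨_, _, _, h4, _⟩ := hSE
  unfold KK' at hy
  induction hy using Subgroup.closure_induction with
  | mem z hz =>
    obtain ⟨x, hx, rfl⟩ := hz
    obtain ⟨h, _, hk⟩ := h4 x hx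
    have e : pr (x * kk * x⁻¹) 1 = pr x h * pr kk 1 * (pr x h)⁻¹ := by
      rw [pr_inv, pr_mul, pr_mul, mul_one, mul_inv_cancel]
    rw [e]
    exact KK'_conj hk prk_mem
  | one => rw [pr_one]; exact KK'.one_mem
  | mul y z _ _ hy hz =>
    have : pr (y * z) 1 = pr y 1 * pr z 1 := by rw [pr_mul, mul_one]
    rw [this]
    exact KK'.mul_mem hy hz
  | inv y _ hy =>
    have : pr y⁻¹ 1 = (pr y 1)⁻¹ := by rw [pr_inv, inv_one]
    rw [this]
    exact KK'.inv_mem hy

theorem pr_mem_right (hSE : G_SE) {y : Perm X} (hy : y ∈ KK') : pr 1 y ∈ KK' := by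
  have : pr 1 y = ga * pr y 1 * ga⁻¹ := by
    rw [ga_mul_pr, mul_assoc, mul_inv_cancel, mul_one]
  rw [this]
  exact KK'_conj ga_mem (pr_mem_left hSE hy)

theorem kk_ne_one : kk ≠ 1 := by
  intro h
  have h1 : kk (cn false xi) = cn false xi := by rw [h]; rfl
  unfold kk at h1
  rw [Perm.mul_apply, Perm.mul_apply, Perm.mul_apply, gs_cn_false, if_neg (by norm_num), ga_cn,
    Bool.not_false, gs_cn_true, ga_cn, Bool.not_true] at h1
  have h2 := congrFun (cn_inj h1).2 0
  rw [gs_first, ga_apply_zero] at h2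
  exact absurd h2 (by simp [xi])

theorem ri (hSE : G_SE) : G_RI := by
  have key : ∀ n x, ∃ g ∈ KK', g ≠ 1 ∧ ∀ y, ¬ Agr n x y → g y = y := by
    intro n
    induction n with
    | zero =>
      intro x
      refine ⟨kk, Subgroup.subset_closure ⟨1, GG.one_mem, ?_⟩, kk_ne_one,
        fun y hy => absurd (Agr_zero x y) hy⟩
      group
    | succ n ih =>
      intro x
      obtain ⟨g, hg, hg1, hgy⟩ := ih (tl x)
      cases h : x 0 with
      | false =>
        refine ⟨pr g 1, pr_mem_left hSE hg, ?_, ?_⟩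
        · intro he
          rw [← pr_one] at he
          exact hg1 (pr_inj he).1
        · intro y hy
          rw [← cn_tl y]
          cases hy0 : y 0 with
          | false =>
            rw [pr_false, hgy]
            intro ha
            exact hy (Agr_succ.2 ⟨by rw [h, hy0], ha⟩)
          | true => rw [pr_true, Perm.one_apply]
      | true =>
        refine ⟨pr 1 g, pr_mem_right hSE hg, ?_, ?_⟩
        · intro he
          rw [← pr_one] at he
          exact hg1 (pr_inj he).2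
        · intro y hy
          rw [← cn_tl y]
          cases hy0 : y 0 with
          | true =>
            rw [pr_true, hgy]
            intro ha
            exact hy (Agr_succ.2 ⟨by rw [h, hy0], ha⟩)
          | false => rw [pr_false, Perm.one_apply]
  intro n x
  obtain ⟨g, hg, h1, h2⟩ := key n x
  exact ⟨g, KK'_le hg, h1, h2⟩

end Pool.Agent.Helper96.GR
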