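import Pool.Agent.Helper62.GR.Goals

/-!
# Project GR (MP_08df5f_al): packet WO (words)
-/

set_option autoImplicit false

namespace Pool.Agent.Helper96.GR

open Equiv Pool.Agent.Helper62.GR

theorem lt_inv (l : Lt) : (lt l)⁻¹ = lt l := by
  cases l
  · exact ga_inv
  · exact gs_inv 0
  · exact gs_inv 1
  · exact gs_inv 2

theorem lt_mem (l : Lt) : lt l ∈ GG := by
  cases l
  · exact ga_mem
  · exact gs_mem 0
  · exact gs_mem 1
  · exact gs_mem 2

theorem ev_append (w w' : List Lt) : ev (w ++ w') = ev w * ev w' := by
  induction w with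
  | nil => simp [ev]
  | cons l w ih => simp only [List.cons_append, ev, ih, mul_assoc]

theorem lt_cn (l : Lt) (j : Bool) (y : X) :
    lt l (cn j y) = cn (xor j (isA l)) (ev (secl j l) y) := by
  cases l <;> cases j
  · simp [lt, isA, secl, ev]
  · simp [lt, isA, secl, ev]
  · change gs 0 (cn false y) = _
    rw [gs_cn_false, if_neg (by norm_num)]
    rfl
  · change gs 0 (cn true y) = _
    rw [gs_cn_true]
    rfl
  · change gs 1 (cn false y) = _
    rw [gs_cn_false, if_neg (by norm_num)]
    rfl
  · change gs 1 (cn true y) = _
    rw [gs_cn_true]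
    rfl
  · change gs 2 (cn false y) = _
    rw [gs_cn_false, if_pos (by norm_num)]
    rfl
  · change gs 2 (cn true y) = _
    rw [gs_cn_true, gs_congr (show (2 + 1) % 3 = 0 % 3 by norm_num)]
    rfl

theorem ev_cn (w : List Lt) (i : Bool) (x : X) :
    ev w (cn i x) = cn (xor i (par w)) (ev (sec i w) x) := by
  induction w with
  | nil => simp [ev, par, sec]
  | cons l w ih =>
    have h1 : ev (l :: w) (cn i x) = lt l (ev w (cn i x)) := rfl
    have h2 : sec i (l :: w) = secl (xor i (par w)) l ++ sec i w := rfl
    have h3 : par (l :: w) = xor (isA l) (par w) := rfl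
    rw [h1, ih, lt_cn, h2, h3, ev_append, Perm.mul_apply]
    congr 1
    rw [Bool.xor_assoc, Bool.xor_comm (isA l)]

theorem ev_rc (l : Lt) (w : List Lt) : ev (rc l w) = lt l * ev w := by
  have haa : ∀ z : Perm X, ga * (ga * z) = z := fun z => by rw [← mul_assoc, ga_mul_ga, one_mul]
  have hbb : ∀ (s : ℕ) (z : Perm X), gs s * (gs s * z) = z := fun s z => by
    rw [← mul_assoc, gs_mul_gs, one_mul]
  have h01 : ∀ z : Perm X, gs 0 * (gs 1 * z) = gs 2 * z := fun z => by
    rw [← mul_assoc, gs_mul_succ]
  have h10 : ∀ z : Perm X, gs 1 * (gs 0 * z) = gs 2 * z := fun z => by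
    rw [← mul_assoc, gs_succ_mul]
  have h12 : ∀ z : Perm X, gs 1 * (gs 2 * z) = gs 0 * z := fun z => by
    rw [← mul_assoc, gs_mul_succ, gs_congr (show (1 + 2) % 3 = 0 % 3 by norm_num)]
  have h21 : ∀ z : Perm X, gs 2 * (gs 1 * z) = gs 0 * z := fun z => by
    rw [← mul_assoc, gs_succ_mul, gs_congr (show (1 + 2) % 3 = 0 % 3 by norm_num)]
  have h20 : ∀ z : Perm X, gs 2 * (gs 0 * z) = gs 1 * z := fun z => by
    rw [← mul_assoc, ← gs_congr (show 3 % 3 = 0 % 3 by norm_num), gs_mul_succ,
      gs_congr (show (2 + 2) % 3 = 1 % 3 by norm_num)]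
  have h02 : ∀ z : Perm X, gs 0 * (gs 2 * z) = gs 1 * z := fun z => by
    rw [← mul_assoc, gs_comm, mul_assoc, h20]
  cases w with
  | nil => cases l <;> rfl
  | cons m w =>
    cases l <;> cases m <;>
      simp only [rc, ev, lt, haa, hbb, h01, h10, h12, h21, h20, h02]

theorem ev_red (w : List Lt) : ev (red w) = ev w := by
  induction w with
  | nil => rfl
  | cons l w ih => simp only [red, ev_rc, ih, ev]

theorem alt_tail {x : Lt} {w : List Lt} (h : alt (x :: w) = true) : alt w = true := by
  cases w with
  | nil => rfl
  | cons y w =>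
    simp only [alt, Bool.and_eq_true] at h
    exact h.2

theorem alt_change {x y : Lt} {w : List Lt} (hxy : isA x = isA y) (h : alt (x :: w) = true) :
    alt (y :: w) = true := by
  cases w with
  | nil => rfl
  | cons z w =>
    simp only [alt] at h ⊢
    rw [← hxy]
    exact h

theorem alt_rc (l : Lt) (w : List Lt) (h : alt w = true) : alt (rc l w) = true := by
  cases w with
  | nil => cases l <;> rfl
  | cons m w =>
    have ht := alt_tail h
    cases l <;> cases m <;> simp only [rc]
    all_goals first
      | exact ht
      | exact alt_change (by rfl) h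

theorem alt_red (w : List Lt) : alt (red w) = true := by
  induction w with
  | nil => rfl
  | cons l w ih => exact alt_rc l _ ih

theorem length_rc (l : Lt) (w : List Lt) : (rc l w).length ≤ w.length + 1 := by
  cases w with
  | nil => cases l <;> simp [rc]
  | cons m w => cases l <;> cases m <;> simp only [rc, List.length_cons] <;> omega

theorem length_red (w : List Lt) : (red w).length ≤ w.length := by
  induction w with
  | nil => exact le_rfl
  | cons l w ih =>
    have := length_rc l (red w)
    simp only [red, List.length_cons]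
    omega

theorem wt_rc (l : Lt) (w : List Lt) : wt (rc l w) ≤ wtl l + wt w := by
  cases w with
  | nil => cases l <;> simp [rc, wt]
  | cons m w => cases l <;> cases m <;> simp only [rc, wt, wtl] <;> omega

theorem wt_red (w : List Lt) : wt (red w) ≤ wt w := by
  induction w with
  | nil => exact le_rfl
  | cons l w ih =>
    have := wt_rc l (red w)
    simp only [red, wt]
    omega

/-- number of letters `≠ a` -/
def nb : List Lt → ℕ
  | [] => 0
  | l :: w => (if isA l = true then 0 else 1) + nb w

/-- number of letters `a` -/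
def na : List Lt → ℕ
  | [] => 0
  | l :: w => (if isA l = true then 1 else 0) + na w

/-- the word is empty or starts with `a` -/
def hd : List Lt → Bool
  | [] => true
  | l :: _ => isA l

theorem nb_add_na (w : List Lt) : nb w + na w = w.length := by
  induction w with
  | nil => rfl
  | cons l w ih =>
    simp only [nb, na, List.length_cons]
    split_ifs <;> omega

theorem nb_le (w : List Lt) (h : alt w = true) : nb w ≤ na w + (if hd w = true then 0 else 1) := by
  induction w with
  | nil => simp [nb]
  | cons l w ih =>
    have ih' := ih (alt_tail h)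
    cases w with
    | nil => cases l <;> simp [nb, na, hd, isA]
    | cons m w =>
      have h1 : xor (isA l) (isA m) = true := by
        simp only [alt, Bool.and_eq_true] at h
        exact h.1
      simp only [nb, na, hd] at ih' ⊢
      cases l <;> cases m <;> simp [isA] at h1 ih' ⊢ <;> omega

theorem length_secl (j : Bool) (l : Lt) :
    (secl j l).length ≤ (if isA l = true then 0 else 1) := by
  cases j <;> cases l <;> simp [secl, isA]

theorem length_sec (i : Bool) (w : List Lt) : (sec i w).length ≤ nb w := by
  induction w with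
  | nil => exact le_rfl
  | cons l w ih =>
    have := length_secl (xor i (par w)) l
    simp only [sec, nb, List.length_append]
    omega

theorem wt_append (w w' : List Lt) : wt (w ++ w') = wt w + wt w' := by
  induction w with
  | nil => simp [wt]
  | cons l w ih => simp only [List.cons_append, wt, ih, add_assoc]

theorem wt_sec (w : List Lt) :
    7 * (wt (sec false w) + wt (sec true w)) + 30 * na w ≤ 6 * wt w + 30 * nb w := by
  induction w with
  | nil => simp [sec, wt, na, nb]
  | cons l w ih =>
    have key : 7 * (wt (secl (par w) l) + wt (secl (!par w) l)) +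
        30 * (if isA l = true then 1 else 0) ≤ 6 * wtl l + 30 * (if isA l = true then 0 else 1) := by
      cases par w <;> cases l <;> simp [secl, wt, wtl, isA]
    simp only [sec, wt, na, nb, wt_append, Bool.false_xor, Bool.true_xor]
    omega

theorem exists_word (g : Perm X) (hg : g ∈ GG) : ∃ w, alt w = true ∧ ev w = g := by
  have h : ∀ g ∈ GG, ∃ w, ev w = g := by
    apply GG_induction
    · exact ⟨[], rfl⟩
    · rintro g _ ⟨w, rfl⟩
      exact ⟨.a :: w, rfl⟩
    · rintro s g _ ⟨w, rfl⟩
      have h3 : s % 3 = 0 ∨ s % 3 = 1 ∨ s % 3 = 2 := by omega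
      rcases h3 with h3 | h3 | h3
      · exact ⟨.b :: w, by rw [gs_congr (t := 0) (by omega)]; rfl⟩
      · exact ⟨.c :: w, by rw [gs_congr (t := 1) (by omega)]; rfl⟩
      · exact ⟨.d :: w, by rw [gs_congr (t := 2) (by omega)]; rfl⟩
  obtain ⟨w, hw⟩ := h g hg
  exact ⟨red w, alt_red w, by rw [ev_red, hw]⟩

theorem ev_reverse (w : List Lt) : ev w.reverse = (ev w)⁻¹ := by
  induction w with
  | nil => simp [ev]
  | cons l w ih =>
    have : ev [l] = lt l := by simp [ev]
    rw [List.reverse_cons, ev_append, ih, this]
    change _ = (lt l * ev w)⁻¹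
    rw [mul_inv_rev, lt_inv]

theorem ev_mem (w : List Lt) : ev w ∈ GG := by
  induction w with
  | nil => exact GG.one_mem
  | cons l w ih => exact GG.mul_mem (lt_mem l) ih

theorem wo : G_WO := by
  refine ⟨ev_append, ev_cn, ev_red, alt_red, length_red, wt_red, ?_, ?_, exists_word, ev_reverse,
    ev_mem⟩
  · intro w h i
    have h1 := nb_le w h
    have h2 := length_sec i w
    have h3 := nb_add_na w
    split_ifs at h1 <;> omega
  · intro w h
    have h1 := nb_le w h
    have h2 := wt_sec w
    split_ifs at h1 <;> omega

end Pool.Agent.Helper96.GR
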